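import Pool.Agent.helper3.FS.SpecE

/-!
# Row fse:SA0 (a priori bound for the truncated Green potential), helper2
-/

set_option autoImplicit false

open Complex Metric Set Filter Topology MeasureTheory
open HY (UD T S hd UN RM)
open RT

noncomputable section

namespace FSE

theorem SA0 (hKTM : KTM_stmt) (hPAK : PAK_stmt) (hABS : RT.ABS_stmt) (hACR : RT.ACR_stmt) (hACK : RT.ACK_stmt) : SA0_stmt := by
  classical
  intro s hs hs1
  obtain ⟨C, κ₁, hC, hκ₁, hA⟩ := hABS s hs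
  obtain ⟨C', hC', hP⟩ := hPAK s (1 / 2) hs (by norm_num)
  obtain ⟨C'', hC'', hK⟩ := hACK s (1 / 2) hs (by norm_num)
  obtain ⟨hT1, hT2, -⟩ := hKTM
  refine ⟨min κ₁ 1, lt_min hκ₁ one_pos, min_le_right _ _, ?_⟩
  intro κ hκ hκle W hW I o ho
  have hκ' : κ ≤ κ₁ := hκle.trans (min_le_left _ _)
  have hlog2 : 0 ≤ Real.log 2 := Real.log_nonneg (by norm_num)
  have hC0 : 0 ≤ C'' := le_trans zero_le_one hC''
  have hCk : 0 ≤ C'' ^ κ := Real.rpow_nonneg hC0 κ
  refine ⟨(I.card : ℝ) * (C + Real.log 2 * C' * C'' ^ κ), ?_, ?_⟩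
  · have : 0 ≤ Real.log 2 * C' * C'' ^ κ := by positivity
    positivity
  intro y hy X hX
  have hcry : 0 < cr W y := (hACR s W hW y hy).2.1
  have hsepy : ∀ (b x x' : ℂ), x ∈ lf W y b → x' ∈ lf W y b → x ≠ x' → s ≤ ‖T x x'‖ := (hACR s W hW y hy).2.2.2.2.2.2.2.1
  have hcyk : 0 ≤ cr W y ^ κ := Real.rpow_nonneg hcry.le κ
  rw [← Finset.sum_fiberwise_of_maps_to (s := X) (t := I) (g := fun p => p.1) (fun p hp => (hX p hp).1)]
  have key : ∀ i ∈ I, ∑ p ∈ X.filter (fun p => p.1 = i), cr W (o p.1) ^ κ * kt p.2 ≤ (C + Real.log 2 * C' * C'' ^ κ) * cr W y ^ κ := by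
    intro i hi
    have hcri : 0 < cr W (o i) := (hACR s W hW (o i) (ho i hi)).2.1
    have hcrik : 0 < cr W (o i) ^ κ := Real.rpow_pos_of_pos hcri κ
    -- the second coordinates
    set E : Finset ℂ := (X.filter (fun p => p.1 = i)).image Prod.snd with hE
    have hEmem : ∀ x ∈ E, x ∈ lf W y (o i) := by
      intro x hx
      obtain ⟨p, hp, rfl⟩ := Finset.mem_image.1 hx
      obtain ⟨hpX, hpi⟩ := Finset.mem_filter.1 hp
      have := (hX p hpX).2
      rwa [hpi] at this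
    have hsum : ∑ p ∈ X.filter (fun p => p.1 = i), cr W (o p.1) ^ κ * kt p.2 = cr W (o i) ^ κ * ∑ x ∈ E, kt x := by
      rw [hE, Finset.sum_image, Finset.mul_sum]
      · refine Finset.sum_congr rfl ?_
        intro p hp
        rw [(Finset.mem_filter.1 hp).2]
      · intro p hp q hq hpq
        have h1 := (Finset.mem_filter.1 (Finset.mem_coe.1 hp)).2
        have h2 := (Finset.mem_filter.1 (Finset.mem_coe.1 hq)).2
        exact Prod.ext (h1.trans h2.symm) hpq
    rw [hsum, ← Finset.sum_filter_add_sum_filter_not E (fun x => 1 / 2 < ‖x‖), mul_add, add_mul]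
    refine add_le_add ?_ ?_
    · have h1 : ∑ x ∈ E.filter (fun x => 1 / 2 < ‖x‖), kt x = ∑ x ∈ E.filter (fun x => 1 / 2 < ‖x‖), Real.log (1 / ‖x‖) := by
        refine Finset.sum_congr rfl ?_
        intro x hx
        exact hT2 x (Finset.mem_filter.1 hx).2.le
      rw [h1]
      have h2 := hA κ hκ hκ' W hW y hy (o i) (ho i hi) (E.filter (fun x => 1 / 2 < ‖x‖)) (fun x hx =>
        ⟨hEmem x (Finset.mem_filter.1 hx).1, (Finset.mem_filter.1 hx).2⟩)
      calc cr W (o i) ^ κ * ∑ x ∈ E.filter (fun x => 1 / 2 < ‖x‖), Real.log (1 / ‖x‖)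
          ≤ cr W (o i) ^ κ * (C * (cr W y / cr W (o i)) ^ κ) := mul_le_mul_of_nonneg_left h2 hcrik.le
        _ = C * cr W y ^ κ := by
          rw [Real.div_rpow hcry.le hcri.le]
          field_simp
    · set G := E.filter (fun x => ¬ 1 / 2 < ‖x‖) with hG
      have hGn : ∀ x ∈ G, ‖x‖ ≤ 1 / 2 := fun x hx => not_lt.1 (Finset.mem_filter.1 hx).2
      have hGm : ∀ x ∈ G, x ∈ lf W y (o i) := fun x hx => hEmem x (Finset.mem_filter.1 hx).1
      have hcard : (G.card : ℝ) ≤ C' := hP G hGn (fun x hx x' hx' hne => hsepy (o i) x x' (hGm x hx) (hGm x' hx') hne)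
      rcases G.eq_empty_or_nonempty with h0 | ⟨x₀, hx₀⟩
      · rw [h0, Finset.sum_empty, mul_zero]
        positivity
      · have h3 : ∑ x ∈ G, kt x ≤ C' * Real.log 2 := by
          calc ∑ x ∈ G, kt x ≤ ∑ x ∈ G, Real.log 2 := Finset.sum_le_sum (fun x hx => (hT1 x ((hGn x hx).trans (by norm_num))).2)
            _ = (G.card : ℝ) * Real.log 2 := by rw [Finset.sum_const, nsmul_eq_mul]
            _ ≤ C' * Real.log 2 := mul_le_mul_of_nonneg_right hcard hlog2
        have h4 : cr W (o i) ≤ C'' * cr W y := by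
          have := (hK W hW y hy x₀ (hGn x₀ hx₀)).1
          rwa [(hGm x₀ hx₀).2] at this
        have h5 : cr W (o i) ^ κ ≤ C'' ^ κ * cr W y ^ κ := by
          rw [← Real.mul_rpow hC0 hcry.le]
          exact Real.rpow_le_rpow hcri.le h4 hκ.le
        have h6 : 0 ≤ C' * Real.log 2 := mul_nonneg hC' hlog2
        calc cr W (o i) ^ κ * ∑ x ∈ G, kt x ≤ cr W (o i) ^ κ * (C' * Real.log 2) := mul_le_mul_of_nonneg_left h3 hcrik.le
          _ ≤ (C'' ^ κ * cr W y ^ κ) * (C' * Real.log 2) := mul_le_mul_of_nonneg_right h5 h6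
          _ = Real.log 2 * C' * C'' ^ κ * cr W y ^ κ := by ring
  calc ∑ i ∈ I, ∑ p ∈ X.filter (fun p => p.1 = i), cr W (o p.1) ^ κ * kt p.2
      ≤ ∑ i ∈ I, (C + Real.log 2 * C' * C'' ^ κ) * cr W y ^ κ := Finset.sum_le_sum key
    _ = (I.card : ℝ) * (C + Real.log 2 * C' * C'' ^ κ) * cr W y ^ κ := by
      rw [Finset.sum_const, nsmul_eq_mul, ← mul_assoc]

end FSE
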